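import Pool.Agent.Y885.PV4

set_option autoImplicit false

/-!
# The variance of the primes in windows of up to `(log X) ^ κ` points, moved by few elements of an arbitrary set

For windows of `b = X ^ o(1)` consecutive integers the conjectured value of the mean square of `ψ(x; b) - b` is
`b log X`. Here every point `h + j` of the window is moved by the sum of a few elements of an arbitrary set `A`; nothing
is assumed but that `A` contains an element of every interval `[x, l x]`. For suitable moved points the mean square is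
`(1 + o(1)) b log X`.
-/

namespace Pool.Agent.Results.MP_2a816b_nt.PerturbedWindowsVariance

open Finset

/-- `σ S h j = h + j + ∑ a ∈ S j, a`: the `j`-th point `h + j` of the window, moved by the elements of `S j`. -/
def σ (S : ℕ → Finset ℕ) (h j : ℕ) : ℕ := h + j + ∑ a ∈ S j, a

/-- `ψ S h n b`: the sum of the von Mangoldt function at the `b` moved points `n + σ S h j`, `0 ≤ j < b` (for `S j = ∅`
this is the weighted number of the prime powers in the interval `[n + h, n + h + b)`). -/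
noncomputable def ψ (S : ℕ → Finset ℕ) (h n b : ℕ) : ℝ := ∑ j ∈ range b, ArithmeticFunction.vonMangoldt (n + σ S h j)

/-- For all `l ≥ 2` and `κ` there is a constant `C` such that for all `H`, `B` and `ε > 0` there is an `X₀` with the
following property. Let `A` be an arbitrary set of integers which contains an element of every interval `[x, l x]`,
`x ≥ 1` (the constants do not depend on `A`), let `X ≥ X₀`, `0 ≤ h ≤ B X` and `b ≤ log ^ κ X`. Then there are sets
`S j`, `j = 0, 1, 2, ...`, of at most `C (log log X) ^ 2` elements of `A`, all between `log ^ H X` and `X / log ^ H X`,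
such that the mean over `1 ≤ n ≤ X` of the square of `ψ S h n b - b` is between `(1 - ε) b log X` and
`(1 + ε) b log X`. -/
theorem result (l κ : ℕ) (hl : 2 ≤ l) : ∃ C : ℝ, ∀ (H B : ℕ) (ε : ℝ), 0 < ε → ∃ X₀ : ℕ,
    ∀ A : Set ℕ, (∀ x : ℕ, 1 ≤ x → ∃ a ∈ A, x ≤ a ∧ a ≤ l * x) →
      ∀ X : ℕ, X₀ ≤ X → ∀ h : ℕ, h ≤ B * X → ∀ b : ℕ, (b : ℝ) ≤ Real.log X ^ κ →
        ∃ S : ℕ → Finset ℕ,
          (∀ j, ∀ a ∈ S j, a ∈ A ∧ Real.log X ^ H ≤ a ∧ (a : ℝ) ≤ X / Real.log X ^ H) ∧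
          (∀ j, ((S j).card : ℝ) ≤ C * Real.log (Real.log X) ^ 2) ∧
          |1 / (X : ℝ) * ∑ n ∈ Icc 1 X, (ψ S h n b - b) ^ 2 - b * Real.log X| ≤ ε * (b * Real.log X) := by
  obtain ⟨C, hC⟩ := Pool.Agent.Y885.las_variance l κ hl
  refine ⟨C, fun H B ε hε => ?_⟩
  obtain ⟨N₀, h0⟩ := hC H B ε hε
  refine ⟨N₀ + 1, fun A hA X hX h hh b hb => ?_⟩
  obtain ⟨S, s1, s2, s3⟩ := h0 A hA X (by omega) h hh b hb
  refine ⟨S, s1, s2, ?_⟩
  have hX0 : (0 : ℝ) < X := by exact_mod_cast (by omega : 0 < X)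
  have e1 : ∀ n ∈ Icc 1 X, (ψ S h n b - b) ^ 2 =
      (∑ j ∈ range b, (Pool.Agent.H373R2.T7.lamI ((n : ℤ) + ((h + j + ∑ a ∈ S j, a : ℕ) : ℤ)) - 1)) ^ 2 := by
    intro n hn
    congr 1
    rw [sum_sub_distrib, sum_const, card_range, nsmul_eq_mul, mul_one]
    congr 1
    unfold ψ
    apply sum_congr rfl
    intro j _
    have e2 : (n : ℤ) + ((h + j + ∑ a ∈ S j, a : ℕ) : ℤ) = ((n + σ S h j : ℕ) : ℤ) := by unfold σ; push_cast; ring
    rw [e2, Pool.Agent.Y885.lamI_nat _ (by have := (mem_Icc.1 hn).1; omega)]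
  rw [sum_congr rfl e1]
  have e3 : 1 / (X : ℝ) * ∑ n ∈ Icc 1 X, (∑ j ∈ range b, (Pool.Agent.H373R2.T7.lamI ((n : ℤ) + ((h + j + ∑ a ∈ S j, a : ℕ) : ℤ)) - 1)) ^ 2 - b * Real.log X =
      1 / X * (∑ n ∈ Icc 1 X, (∑ j ∈ range b, (Pool.Agent.H373R2.T7.lamI ((n : ℤ) + ((h + j + ∑ a ∈ S j, a : ℕ) : ℤ)) - 1)) ^ 2 - b * (Real.log X * X)) := by
    field_simp
  rw [e3, abs_mul, abs_of_pos (by positivity : 0 < 1 / (X : ℝ))]
  calc 1 / (X : ℝ) * |∑ n ∈ Icc 1 X, (∑ j ∈ range b, (Pool.Agent.H373R2.T7.lamI ((n : ℤ) + ((h + j + ∑ a ∈ S j, a : ℕ) : ℤ)) - 1)) ^ 2 - b * (Real.log X * X)|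
      ≤ 1 / X * (ε * (b * (Real.log X * X))) := mul_le_mul_of_nonneg_left s3 (by positivity)
    _ = ε * (b * Real.log X) := by field_simp

end Pool.Agent.Results.MP_2a816b_nt.PerturbedWindowsVariance
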