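import Pool.Agent.Y857.VP.Fin

/-! An unconditional lower bound of the conjectured order of magnitude for the variance of primes in
short intervals, in every window of exponents. -/

open MeasureTheory

namespace Pool.Agent.Results.MP_2a816b_nt.WindowsLongerThanOne

/-- The weighted number of prime powers in the interval of length `H` centred at `x`. -/
noncomputable def psi (x H : ℝ) : ℝ :=
  ∑ᶠ n ∈ {n : ℕ | 1 ≤ n ∧ x - H / 2 ≤ n ∧ (n : ℝ) ≤ x + H / 2}, ArithmeticFunction.vonMangoldt n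

/-- For all real `a > 1` and `b > a + 1` there are `c > 0` and `T₀` such that for every `T ≥ T₀`
there are `X` and `H` with `T ^ a ≤ X ≤ T ^ b` and `X / (32 T) ≤ H ≤ 2 X / T` for which
`(1 / X) ∫ |ψ(x;H) - H| ^ 2` over `[X / 2, X]`, and so over `[1, X]`, is at least `c H log X`. -/
theorem result : ∀ a b : ℝ, 1 < a → a + 1 < b → ∃ c T₀ : ℝ, 0 < c ∧ ∀ T : ℝ, T₀ ≤ T →
    ∃ X H : ℝ, T ^ a ≤ X ∧ X ≤ T ^ b ∧ X / (32 * T) ≤ H ∧ H ≤ 2 * X / T ∧
      c * H * Real.log X ≤ (1 / X) * ∫ x in (X / 2)..X, |psi x H - H| ^ 2 ∧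
      (1 / X) * ∫ x in (X / 2)..X, |psi x H - H| ^ 2 ≤
        (1 / X) * ∫ x in (1 : ℝ)..X, |psi x H - H| ^ 2 := by
  intro a b ha hab
  obtain ⟨c, T₀, hc, h⟩ := Pool.Agent.Y857.VP.window_VG a b ha hab
  refine ⟨c, max T₀ 2, hc, fun T hT => ?_⟩
  obtain ⟨X, H, h1, h2, h3, h4, h5⟩ := h T ((le_max_left _ _).trans hT)
  have hT2 : 2 ≤ T := (le_max_right _ _).trans hT
  have hX2 : 2 ≤ X := by
    refine le_trans ?_ h1
    calc (2 : ℝ) ≤ T := hT2
      _ = T ^ (1 : ℝ) := (Real.rpow_one T).symm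
      _ ≤ T ^ a := Real.rpow_le_rpow_of_exponent_le (by linarith) ha.le
  have hH : 0 ≤ H := le_trans (by positivity) h3
  exact ⟨X, H, h1, h2, h3, h4, h5, Pool.Agent.Y857.VP.mean_le X H hX2 hH⟩

end Pool.Agent.Results.MP_2a816b_nt.WindowsLongerThanOne
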